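import Pool.Agent.Helper10.CR.Goals2

/-!
# CR-ESP: the hypotheses (i), (ii) for the spaces of a pp condition
-/

universe u v

namespace Pool.Agent.Helper60.CR

open Pool.Agent.Helper10.Width Pool.Agent.Helper72.Width Pool.Agent.Helper78.SD
open Pool.Agent.Helper10.CR IsLocalRing

theorem re_sum {R : Type u} [CommRing R] {α β : R} {ι : Type v} (s : Finset ι)
    (f : ι → QuadraticAlgebra R α β) : (∑ i ∈ s, f i).re = ∑ i ∈ s, (f i).re :=
  map_sum (QuadraticAlgebra.reₗ (R := R) (a := α) (b := β)) f s

theorem im_sum {R : Type u} [CommRing R] {α β : R} {ι : Type v} (s : Finset ι)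
    (f : ι → QuadraticAlgebra R α β) : (∑ i ∈ s, f i).im = ∑ i ∈ s, (f i).im :=
  map_sum (QuadraticAlgebra.imₗ (R := R) (a := α) (b := β)) f s

theorem espI (R : Type u) [CommRing R] [IsLocalRing R] (r x b : R) (h : DI R r x b) (θ : PP R) :
    (∀ ε ∈ (ctxI h).EA θ, (Sum.elim ε (fun _ => 0) : ID 2 θ.n → ResidueField R) ∈
      (ctxI h).ED θ) ∧
    ∀ ε ∈ (ctxI h).ED θ, (Sum.elim (fun _ => 0)
      (fun p => if p.1 = 0 then ε (Sum.inr p.2) else 0) : IA 2 θ.n → ResidueField R) ∈
        (ctxI h).EA θ := by
  constructor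
  · rintro _ ⟨ξ, φ, η, hE, rfl⟩
    refine ⟨ξ, φ, 0, η, fun c => ?_, ?_⟩
    · have := hE c
      simp only [Algebra.algebraMap_self, RingHom.id_apply, Pi.zero_apply, mul_zero, add_zero]
      exact this
    · ext i
      rcases i with (i | i) | i
      · rfl
      · rfl
      · exact (map_zero _).symm
  · rintro _ ⟨ξ, φ, κ, η, hE, rfl⟩
    refine ⟨r * ξ, fun p : Fin 2 × Fin θ.n => if p.1 = 0 then κ p.2 else 0, fun l => r * η l, fun c => ?_, ?_⟩
    · have h1 := hE c
      simp only [Algebra.algebraMap_self, RingHom.id_apply] at h1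
      have e1 : θ.a c * (r * ξ) + ∑ l, θ.b c l * (r * η l) =
          r * (θ.a c * ξ + ∑ l, θ.b c l * η l) := by
        rw [mul_add, Finset.mul_sum]
        congr 1
        · ring
        · exact Finset.sum_congr rfl fun _ _ => by ring
      rw [e1, h1]
      show r * (∑ j : Fin 2, (![r * x, b] : Fin 2 → R) j * φ (j, c) + x * κ c) =
        ∑ j : Fin 2, (![r * x, b] : Fin 2 → R) j * (if j = 0 then κ c else 0)
      rw [Fin.sum_univ_two, Fin.sum_univ_two]
      simp only [Matrix.cons_val_zero, Matrix.cons_val_one, if_true, one_ne_zero, if_false]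
      obtain ⟨s1, s2⟩ := h.soc r h.rm
      linear_combination φ ((0 : Fin 2), c) * s1 + φ ((1 : Fin 2), c) * s2
    · ext i
      rcases i with i | p
      · show (0 : ResidueField R) = residue R (r * ξ)
        rw [map_mul, residue_zero_of_mem h.rm, zero_mul]
      · show (if p.1 = 0 then residue R (κ p.2) else 0) =
          residue R (if p.1 = 0 then κ p.2 else 0)
        split_ifs
        · rfl
        · exact (map_zero _).symm

theorem espII (R : Type u) [CommRing R] [IsLocalRing R] (r x x' α β : R)
    (h : DII R r x x' α β) (θ : PP R) :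
    (∀ ε ∈ (ctxII h).EA θ, (Sum.elim (fun i => algebraMap (ResidueField R)
      (QuadraticAlgebra (ResidueField R) (residue R α) (residue R β)) (ε i))
      (fun _ => 0) : ID 2 θ.n → QuadraticAlgebra (ResidueField R) (residue R α) (residue R β)) ∈
        (ctxII h).ED θ) ∧
    ∀ ε ∈ (ctxII h).ED θ, (Sum.elim (fun _ => 0) (fun p => if p.1 = 0 then
        -(residue R α * (ε (Sum.inr p.2)).im)
        else (ε (Sum.inr p.2)).re) : IA 2 θ.n → ResidueField R) ∈ (ctxII h).EA θ ∧
      (Sum.elim (fun _ => 0) (fun p => if p.1 = 0 then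
        -((ε (Sum.inr p.2)).re + residue R β * (ε (Sum.inr p.2)).im)
        else (ε (Sum.inr p.2)).im) : IA 2 θ.n → ResidueField R) ∈ (ctxII h).EA θ := by
  obtain ⟨s1, s2⟩ := h.soc r h.rm
  constructor
  · rintro _ ⟨ξ, φ, η, hE, rfl⟩
    refine ⟨algebraMap R _ ξ, fun p => algebraMap R _ (φ p), 0, fun l => algebraMap R _ (η l),
      fun c => ?_, ?_⟩
    · have h1 := congrArg (algebraMap R (QuadraticAlgebra R α β)) (hE c)
      simp only [map_add, map_mul, map_sum] at h1
      rw [h1]
      simp
    · ext i
      · rcases i with (i | i) | i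
        · exact congrArg QuadraticAlgebra.re ((ctxII h).comm ξ).symm
        · exact congrArg QuadraticAlgebra.re ((ctxII h).comm (φ i)).symm
        · exact congrArg QuadraticAlgebra.re (map_zero (ctxII h).ρ').symm
      · rcases i with (i | i) | i
        · exact congrArg QuadraticAlgebra.im ((ctxII h).comm ξ).symm
        · exact congrArg QuadraticAlgebra.im ((ctxII h).comm (φ i)).symm
        · exact congrArg QuadraticAlgebra.im (map_zero (ctxII h).ρ').symm
  · rintro _ ⟨ξ, φ, κ, η, hE, rfl⟩
    have hre : ∀ c, θ.a c * ξ.re + ∑ l, θ.b c l * (η l).re =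
        (r * x) * (φ ((0 : Fin 2), c)).re + (r * x') * (φ ((1 : Fin 2), c)).re +
          (x' * (κ c).re + α * (-x) * (κ c).im) := by
      intro c
      have h1 := congrArg QuadraticAlgebra.re (hE c)
      have e2 : (∑ j, algebraMap R (QuadraticAlgebra R α β) ((ctxII h).a j) * φ (j, c)) =
          algebraMap R (QuadraticAlgebra R α β) (r * x) * φ ((0 : Fin 2), c) +
          algebraMap R (QuadraticAlgebra R α β) (r * x') * φ ((1 : Fin 2), c) :=
        Fin.sum_univ_two _
      rw [e2] at h1
      have e3 : ((ctxII h).χ : QuadraticAlgebra R α β) = ⟨x', -x⟩ := rfl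
      rw [e3] at h1
      simp only [QuadraticAlgebra.re_add, QuadraticAlgebra.re_mul, re_sum,
        QuadraticAlgebra.algebraMap_re, QuadraticAlgebra.algebraMap_im, mul_zero, zero_mul,
        add_zero] at h1
      exact h1
    have him : ∀ c, θ.a c * ξ.im + ∑ l, θ.b c l * (η l).im =
        (r * x) * (φ ((0 : Fin 2), c)).im + (r * x') * (φ ((1 : Fin 2), c)).im +
          (x' * (κ c).im + (-x) * (κ c).re + β * (-x) * (κ c).im) := by
      intro c
      have h1 := congrArg QuadraticAlgebra.im (hE c)
      have e2 : (∑ j, algebraMap R (QuadraticAlgebra R α β) ((ctxII h).a j) * φ (j, c)) =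
          algebraMap R (QuadraticAlgebra R α β) (r * x) * φ ((0 : Fin 2), c) +
          algebraMap R (QuadraticAlgebra R α β) (r * x') * φ ((1 : Fin 2), c) :=
        Fin.sum_univ_two _
      rw [e2] at h1
      have e3 : ((ctxII h).χ : QuadraticAlgebra R α β) = ⟨x', -x⟩ := rfl
      rw [e3] at h1
      simp only [QuadraticAlgebra.im_add, QuadraticAlgebra.im_mul, im_sum,
        QuadraticAlgebra.algebraMap_re, QuadraticAlgebra.algebraMap_im, mul_zero, zero_mul,
        add_zero] at h1
      exact h1
    have pull : ∀ (ξ₁ : R) (η₁ : Fin θ.k → R) (c : Fin θ.n),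
        θ.a c * (r * ξ₁) + ∑ l, θ.b c l * (r * η₁ l) =
          r * (θ.a c * ξ₁ + ∑ l, θ.b c l * η₁ l) := by
      intro ξ₁ η₁ c
      rw [mul_add, Finset.mul_sum]
      congr 1
      · ring
      · exact Finset.sum_congr rfl fun _ _ => by ring
    constructor
    · refine ⟨r * ξ.re, fun p : Fin 2 × Fin θ.n => if p.1 = 0 then -(α * (κ p.2).im) else (κ p.2).re,
        fun l => r * (η l).re, fun c => ?_, ?_⟩
      · rw [pull, hre c]
        show _ = ∑ j : Fin 2, (![r * x, r * x'] : Fin 2 → R) j *
          (if j = 0 then -(α * (κ c).im) else (κ c).re)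
        rw [Fin.sum_univ_two]
        simp only [Matrix.cons_val_zero, Matrix.cons_val_one, if_true, one_ne_zero, if_false]
        linear_combination (φ ((0 : Fin 2), c)).re * s1 + (φ ((1 : Fin 2), c)).re * s2
      · ext i
        rcases i with i | p
        · show (0 : ResidueField R) = residue R (r * ξ.re)
          rw [map_mul, residue_zero_of_mem h.rm, zero_mul]
        · show (if p.1 = 0 then -(residue R α * residue R (κ p.2).im)
            else residue R (κ p.2).re) =
              residue R (if p.1 = 0 then -(α * (κ p.2).im) else (κ p.2).re)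
          split_ifs
          · rw [map_neg, map_mul]
          · rfl
    · refine ⟨r * ξ.im, fun p : Fin 2 × Fin θ.n => if p.1 = 0 then -((κ p.2).re + β * (κ p.2).im)
        else (κ p.2).im, fun l => r * (η l).im, fun c => ?_, ?_⟩
      · rw [pull, him c]
        show _ = ∑ j : Fin 2, (![r * x, r * x'] : Fin 2 → R) j *
          (if j = 0 then -((κ c).re + β * (κ c).im) else (κ c).im)
        rw [Fin.sum_univ_two]
        simp only [Matrix.cons_val_zero, Matrix.cons_val_one, if_true, one_ne_zero, if_false]
        linear_combination (φ ((0 : Fin 2), c)).im * s1 + (φ ((1 : Fin 2), c)).im * s2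
      · ext i
        rcases i with i | p
        · show (0 : ResidueField R) = residue R (r * ξ.im)
          rw [map_mul, residue_zero_of_mem h.rm, zero_mul]
        · show (if p.1 = 0 then -(residue R (κ p.2).re + residue R β * residue R (κ p.2).im)
            else residue R (κ p.2).im) =
              residue R (if p.1 = 0 then -((κ p.2).re + β * (κ p.2).im) else (κ p.2).im)
          split_ifs
          · rw [map_neg, map_add, map_mul]
          · rfl

theorem goalEsp : GoalEsp.{u} :=
  ⟨fun R _ _ r x b h θ => espI R r x b h θ, fun R _ _ r x x' α β h θ => espII R r x x' α β h θ⟩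

end Pool.Agent.Helper60.CR
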