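import Pool.Agent.Helper39.CR.GoalsT

/-!
# Project CAR (MP_d97caa_an), stage 3, packet TSZ: suspension over the unit interval
-/

open scoped ComplexOrder ZeroAtInfty
open TopologicalSpace

namespace Pool.Agent.Helper60.CR

open Pool.Agent.Helper34.CAR Pool.Agent.Helper39.CR

noncomputable section

/-- Continuous functions `[0,1] → A` vanishing at `1`. -/
def coneSub (A : Type) [NonUnitalCStarAlgebra A] :
    NonUnitalStarSubalgebra ℂ C(unitInterval, A) where
  carrier := {f | f 1 = 0}
  add_mem' {f g} hf hg := by simp_all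
  zero_mem' := by simp
  mul_mem' {f g} hf hg := by simp_all
  smul_mem' c f hf := by simp_all
  star_mem' {f} hf := by simp_all

instance (A : Type) [NonUnitalCStarAlgebra A] :
    IsClosed ((coneSub A : NonUnitalStarSubalgebra ℂ C(unitInterval, A)) :
      Set C(unitInterval, A)) := by
  have h : ((coneSub A : NonUnitalStarSubalgebra ℂ C(unitInterval, A)) :
      Set C(unitInterval, A)) = {f | f 1 = 0} := rfl
  rw [h]
  exact isClosed_eq (continuous_eval_const 1) continuous_const

/-- The cone. -/
abbrev Cone (A : Type) [NonUnitalCStarAlgebra A] : Type := ↥(coneSub A)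

variable {A : Type} [NonUnitalCStarAlgebra A]

/-- The inclusion of the suspension. -/
def incl (A : Type) [NonUnitalCStarAlgebra A] : Sus A →⋆ₙₐ[ℂ] Cone A where
  toFun f := ⟨f.1, f.2.2⟩
  map_smul' _ _ := rfl
  map_zero' := rfl
  map_add' _ _ := rfl
  map_mul' _ _ := rfl
  map_star' _ := rfl

/-- Evaluation at `0`. -/
def ev0 (A : Type) [NonUnitalCStarAlgebra A] : Cone A →⋆ₙₐ[ℂ] A where
  toFun f := f.1 0
  map_smul' _ _ := rfl
  map_zero' := rfl
  map_add' _ _ := rfl
  map_mul' _ _ := rfl
  map_star' _ := rfl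

/-- The reparametrisation `t ↦ max s t`. -/
def rp (s : unitInterval) : C(unitInterval, unitInterval) :=
  ⟨fun t => max s t, continuous_const.max continuous_id⟩

/-- The contraction of the cone. -/
def ct (A : Type) [NonUnitalCStarAlgebra A] (s : unitInterval) : Cone A →⋆ₙₐ[ℂ] Cone A where
  toFun f := ⟨f.1.comp (rp s), by
    have h1 : max s (1 : unitInterval) = 1 := max_eq_right s.2.2
    change f.1 (max s 1) = 0
    rw [h1]
    exact f.2⟩
  map_smul' _ _ := rfl
  map_zero' := rfl
  map_add' _ _ := rfl
  map_mul' _ _ := rfl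
  map_star' _ := rfl

theorem ct_apply (s t : unitInterval) (f : Cone A) : (ct A s f).1 t = f.1 (max s t) := rfl

theorem ct_continuous (f : Cone A) : Continuous fun s => ct A s f := by
  rw [continuous_induced_rng]
  let F : C(unitInterval × unitInterval, A) :=
    ⟨fun p => f.1 (max p.1 p.2), f.1.continuous.comp (continuous_fst.max continuous_snd)⟩
  have h : (Subtype.val ∘ fun s => ct A s f) = fun s => F.curry s := by
    funext s
    ext t
    rfl
  rw [h]
  exact F.curry.continuous

theorem ct_zero : ct A 0 = NonUnitalStarAlgHom.id ℂ (Cone A) := by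
  apply DFunLike.ext
  intro f
  apply Subtype.ext
  ext t
  have h0 : max (0 : unitInterval) t = t := max_eq_right t.2.1
  rw [ct_apply, h0]
  rfl

theorem ct_one (f : Cone A) : ct A 1 f = 0 := by
  apply Subtype.ext
  ext t
  have h0 : max (1 : unitInterval) t = 1 := max_eq_left t.2.2
  rw [ct_apply, h0]
  exact f.2

theorem cone_zero (hTZ : S_TZ) (T : Theory) [SeparableSpace A] : T.Zero (Cone A) := by
  intro i x
  have h1 : T.map i (ct A 0) x = x := by
    rw [ct_zero]
    exact T.map_id i (Cone A) x
  have h2 : T.map i (ct A 0) = T.map i (ct A 1) :=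
    T.homotopy i (Cone A) (Cone A) (ct A) ct_continuous
  rw [← h1, h2]
  exact (hTZ T).1 i (Cone A) (Cone A) (ct A 1) ct_one x

theorem ev0_surjective : Function.Surjective (ev0 A) := by
  intro a
  refine ⟨⟨⟨fun t => ((1 - (t : ℝ) : ℝ) : ℂ) • a, ?_⟩, ?_⟩, ?_⟩
  · have : Continuous fun t : unitInterval => ((1 - (t : ℝ) : ℝ) : ℂ) :=
      Complex.continuous_ofReal.comp (continuous_const.sub continuous_subtype_val)
    exact this.smul continuous_const
  · change ((1 - ((1 : unitInterval) : ℝ) : ℝ) : ℂ) • a = 0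
    simp
  · change ((1 - ((0 : unitInterval) : ℝ) : ℝ) : ℂ) • a = a
    simp

theorem tsz (hTZ : S_TZ) : S_TSZ := by
  intro T A _ _
  have hc : T.Zero (Cone A) := cone_zero hTZ T
  have hi : Function.Injective (incl A) := by
    intro f g h
    have h1 : (incl A f).1 = (incl A g).1 := by rw [h]
    exact Subtype.ext h1
  have hk : ∀ a : Cone A, ev0 A a = 0 ↔ a ∈ Set.range (incl A) := by
    intro a
    constructor
    · intro h
      exact ⟨⟨a.1, h, a.2⟩, rfl⟩
    · rintro ⟨f, rfl⟩
      exact f.2.1
  have hex := fun i => T.exact i (Sus A) (Cone A) A (incl A) (ev0 A) hi ev0_surjective hk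
  constructor
  · intro hS
    have key : ∀ i, ∀ x : T.F (i + 1) A, x = 0 := by
      intro i x
      obtain ⟨d, -, -, h3⟩ := hex i
      obtain ⟨y, hy⟩ := (h3 x).1 (hc (i + 1) _)
      rw [← hy, hS i y, map_zero]
    intro i
    have h := key (i - 1)
    rw [sub_add_cancel] at h
    exact h
  · intro hA i x
    obtain ⟨d, -, h2, -⟩ := hex i
    obtain ⟨y, hy⟩ := (h2 x).1 (hA (i + 1) _)
    rw [← hy, hc i y, map_zero]

end

end Pool.Agent.Helper60.CR
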